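import Mathlib

namespace TH696.HW

/-- A group `P` is polycyclic: there is a finite chain of subgroups
`1 = s 0 ≤ s 1 ≤ ... ≤ s n = P` in which each `s i` is normal in `s (i + 1)` and every factor
`s (i + 1) / s i` is cyclic. -/
def IsPolycyclic (P : Type) [Group P] : Prop :=
  ∃ (n : ℕ) (s : ℕ → Subgroup P), s 0 = ⊥ ∧ s n = ⊤ ∧
    ∀ i < n, s i ≤ s (i + 1) ∧ ∃ _ : ((s i).subgroupOf (s (i + 1))).Normal,
      IsCyclic (s (i + 1) ⧸ (s i).subgroupOf (s (i + 1)))

/-- A group is polycyclic-by-finite: it has a polycyclic normal subgroup of finite index. -/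
def IsPolycyclicByFinite (G : Type) [Group G] : Prop :=
  ∃ A : Subgroup G, A.Normal ∧ A.FiniteIndex ∧ IsPolycyclic A

end TH696.HW
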