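import Mathlib

/-!
A countably generated projective module attached to an idempotent-type relation
`a i = ∑ p q, a p * a q * r i p q` in a ring.
-/

universe u v

namespace TH696.HW

open Finsupp

section General

variable {R : Type u} [Ring R] (a : Bool → R) (r : Bool → Bool → Bool → R)

/-- `D e_w = e_w - ∑ i, a_i e_{i::w}`. -/
noncomputable def D : (List Bool →₀ R) →ₗ[R] (List Bool →₀ R) :=
  Finsupp.linearCombination R (fun w =>
    (Finsupp.single w 1 : List Bool →₀ R)
      - (a false • Finsupp.single (false :: w) 1 + a true • Finsupp.single (true :: w) 1))

/-- auxiliary recursion for the splitting. -/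
noncomputable def U : List Bool → Bool → (List Bool →₀ R)
  | [], _ => 0
  | (p :: w), q => r false p q • (U w false - Finsupp.single (false :: w) 1)
      + r true p q • (U w true - Finsupp.single (true :: w) 1)

/-- the splitting. -/
noncomputable def S : (List Bool →₀ R) →ₗ[R] (List Bool →₀ R) :=
  Finsupp.linearCombination R (fun w =>
    (Finsupp.single w 1 : List Bool →₀ R) + (a false • U r w false + a true • U r w true))

theorem D_single (w : List Bool) : D a (Finsupp.single w 1) =
    (Finsupp.single w 1 : List Bool →₀ R)
      - (a false • Finsupp.single (false :: w) 1 + a true • Finsupp.single (true :: w) 1) := by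
  simp [D]

theorem S_single (w : List Bool) : S a r (Finsupp.single w 1) =
    (Finsupp.single w 1 : List Bool →₀ R) + (a false • U r w false + a true • U r w true) := by
  simp [S]

theorem S_comp_D
    (h : ∀ i, a i = a false * a false * r i false false + a false * a true * r i false true
      + a true * a false * r i true false + a true * a true * r i true true) :
    (S a r) ∘ₗ (D a) = LinearMap.id := by
  apply Finsupp.lhom_ext'
  intro w
  apply LinearMap.ext_ring
  simp only [LinearMap.comp_apply, Finsupp.lsingle_apply, LinearMap.id_apply]
  rw [D_single, map_sub, map_add, map_smul, map_smul, S_single, S_single, S_single]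
  simp only [U]
  have h0 := h false
  have h1 := h true
  generalize U r w false = u at *
  generalize U r w true = v at *
  generalize (Finsupp.single (false :: w) 1 : List Bool →₀ R) = e at *
  generalize (Finsupp.single (true :: w) 1 : List Bool →₀ R) = f at *
  generalize (Finsupp.single w 1 : List Bool →₀ R) = g at *
  obtain ⟨x, hx⟩ : ∃ x, x = u - e := ⟨_, rfl⟩
  obtain ⟨y, hy⟩ : ∃ y, y = v - f := ⟨_, rfl⟩
  have hu : u = x + e := by rw [hx]; abel
  have hv : v = y + f := by rw [hy]; abel
  rw [← hx, ← hy, hu, hv]
  have e0 : a false • x = a false • a false • r false false false • x
      + a false • a true • r false false true • x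
      + a true • a false • r false true false • x + a true • a true • r false true true • x := by
    conv_lhs => rw [h0]
    simp only [add_smul, mul_smul]
  have e1 : a true • y = a false • a false • r true false false • y
      + a false • a true • r true false true • y
      + a true • a false • r true true false • y + a true • a true • r true true true • y := by
    conv_lhs => rw [h1]
    simp only [add_smul, mul_smul]
  simp only [smul_add]
  generalize a false • a false • r false false false • x = x1 at *
  generalize a false • a true • r false false true • x = x2 at *
  generalize a true • a false • r false true false • x = x3 at *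
  generalize a true • a true • r false true true • x = x4 at *
  generalize a false • a false • r true false false • y = y1 at *
  generalize a false • a true • r true false true • y = y2 at *
  generalize a true • a false • r true true false • y = y3 at *
  generalize a true • a true • r true true true • y = y4 at *
  rw [e0, e1]
  abel

/-- the module `P`. -/
abbrev P : Type u := (List Bool →₀ R) ⧸ LinearMap.range (D a)

theorem projective
    (h : ∀ i, a i = a false * a false * r i false false + a false * a true * r i false true
      + a true * a false * r i true false + a true * a true * r i true true) :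
    Module.Projective R (P a) := by
  have hSD := S_comp_D a r h
  let g : P a →ₗ[R] (List Bool →₀ R) := (LinearMap.range (D a)).liftQ (LinearMap.id - (D a) ∘ₗ (S a r)) (by
    rintro _ ⟨x, rfl⟩
    have := LinearMap.congr_fun hSD x
    simp only [LinearMap.comp_apply, LinearMap.id_apply] at this
    simp [LinearMap.mem_ker, this])
  refine Module.Projective.of_split g (LinearMap.range (D a)).mkQ ?_
  apply Submodule.linearMap_qext
  refine LinearMap.ext fun x => ?_
  show (LinearMap.range (D a)).mkQ (LinearMap.id x - (D a) (S a r x)) = (LinearMap.range (D a)).mkQ x
  rw [map_sub, LinearMap.id_apply]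
  have : (LinearMap.range (D a)).mkQ ((D a) (S a r x)) = 0 := by
    rw [Submodule.mkQ_apply, Submodule.Quotient.mk_eq_zero]
    exact ⟨_, rfl⟩
  rw [this, sub_zero]

/-- The basic elements of `P`. -/
noncomputable def e (w : List Bool) : P a := (LinearMap.range (D a)).mkQ (Finsupp.single w 1)

theorem e_rel (w : List Bool) : e a w = a false • e a (false :: w) + a true • e a (true :: w) := by
  have : (LinearMap.range (D a)).mkQ (D a (Finsupp.single w 1)) = 0 := by
    rw [Submodule.mkQ_apply, Submodule.Quotient.mk_eq_zero]
    exact ⟨_, rfl⟩
  rw [D_single, map_sub, map_add, map_smul, map_smul, sub_eq_zero] at this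
  exact this

/-- Every homomorphism `P → R` has image in the kernel of `ε` when `ε (a i) = 0`. -/
theorem eps_hom {k : Type v} [Ring k] (ε : R →+* k) (hε : ∀ i, ε (a i) = 0)
    (ψ : P a →ₗ[R] R) (x : P a) : ε (ψ x) = 0 := by
  have hw : ∀ w, ε (ψ (e a w)) = 0 := by
    intro w
    rw [e_rel, map_add, map_smul, map_smul, map_add, smul_eq_mul, smul_eq_mul, map_mul, map_mul,
      hε, hε, zero_mul, zero_mul, add_zero]
  obtain ⟨y, rfl⟩ := Submodule.mkQ_surjective _ x
  induction y using Finsupp.induction_linear with
  | zero => simp
  | add f g hf hg => rw [map_add, map_add, map_add, hf, hg, add_zero]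
  | single w c =>
    have : (Finsupp.single w c : List Bool →₀ R) = c • Finsupp.single w 1 := by simp
    rw [this, map_smul, map_smul, smul_eq_mul, map_mul]
    have := hw w
    unfold e at this
    rw [this, mul_zero]

end General

end TH696.HW
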