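import Mathlib

namespace TH696.HW

open DihedralGroup

/-- the infinite dihedral group -/
abbrev Dih : Type := DihedralGroup 0

/-- reflection indicator. -/
def sgn : Dih → ZMod 2
  | .r _ => 0
  | .sr _ => 1

/-- reduction mod 2 of the index. -/
def q : ZMod 0 →+* ZMod 2 := ZMod.castHom (dvd_zero 2) (ZMod 2)

/-- parity of the index. -/
def par : Dih → ZMod 2
  | .r i => q i
  | .sr i => q i

theorem sgn_mul (x y : Dih) : sgn (x * y) = sgn x + sgn y := by
  cases x <;> cases y <;> simp only [sgn, r_mul_r, r_mul_sr, sr_mul_r, sr_mul_sr] <;> decide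

theorem zmod2_neg (x : ZMod 2) : -x = x := by revert x; decide

theorem par_mul (x y : Dih) : par (x * y) = par x + par y := by
  cases x with
  | r i => cases y with
    | r j =>
      rw [r_mul_r]
      show q (i + j) = q i + q j
      rw [map_add]
    | sr j =>
      rw [r_mul_sr]
      show q (j - i) = q i + q j
      rw [map_sub, sub_eq_add_neg, zmod2_neg, add_comm]
  | sr i => cases y with
    | r j =>
      rw [sr_mul_r]
      show q (i + j) = q i + q j
      rw [map_add]
    | sr j =>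
      rw [sr_mul_sr]
      show q (j - i) = q i + q j
      rw [map_sub, sub_eq_add_neg, zmod2_neg, add_comm]

/-- sign homomorphism -/
def sgnHom : Dih →* Multiplicative (ZMod 2) :=
  MonoidHom.mk' (fun x => Multiplicative.ofAdd (sgn x)) (fun x y => by rw [sgn_mul]; rfl)

theorem sgn_one : sgn 1 = 0 := rfl
theorem par_one : par 1 = 0 := rfl

theorem sgn_inv (x : Dih) : sgn x⁻¹ = sgn x := by
  have h := sgn_mul x x⁻¹
  rw [mul_inv_cancel, sgn_one] at h
  have : ∀ a b : ZMod 2, 0 = a + b → b = a := by decide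
  exact this _ _ h

theorem par_inv (x : Dih) : par x⁻¹ = par x := by
  have h := par_mul x x⁻¹
  rw [mul_inv_cancel, par_one] at h
  have : ∀ a b : ZMod 2, 0 = a + b → b = a := by decide
  exact this _ _ h

/-- The Hantzsche-Wendt group inside `Dih × Dih × Dih`. -/
def GS : Subgroup (Dih × Dih × Dih) where
  carrier := {g | par g.1 = sgn g.2.1 ∧ par g.2.1 = sgn g.2.2 ∧ par g.2.2 = sgn g.1 ∧
    sgn g.1 + sgn g.2.1 + sgn g.2.2 = 0}
  mul_mem' := by
    rintro ⟨x1, x2, x3⟩ ⟨y1, y2, y3⟩ ⟨h1, h2, h3, h4⟩ ⟨k1, k2, k3, k4⟩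
    simp only [Set.mem_ofPred_eq, Prod.mk_mul_mk, par_mul, sgn_mul] at *
    refine ⟨by rw [h1, k1], by rw [h2, k2], by rw [h3, k3], ?_⟩
    linear_combination h4 + k4
  one_mem' := by
    refine ⟨rfl, rfl, rfl, rfl⟩
  inv_mem' := by
    rintro ⟨x1, x2, x3⟩ ⟨h1, h2, h3, h4⟩
    simp only [Set.mem_ofPred_eq, Prod.inv_mk, par_inv, sgn_inv] at *
    exact ⟨h1, h2, h3, h4⟩

/-- The Hantzsche-Wendt group. -/
abbrev G : Type := GS

theorem mem_iff (x y z : Dih) : (x, y, z) ∈ GS ↔ par x = sgn y ∧ par y = sgn z ∧ par z = sgn x ∧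
    sgn x + sgn y + sgn z = 0 := Iff.rfl

theorem eq_one_of_sgn_zero (x : Dih) (n : ℕ) (hn : 0 < n) (hx : x ^ n = 1) (hs : sgn x = 0) :
    x = 1 := by
  cases x with
  | r i =>
    rw [r_pow, DihedralGroup.one_def] at hx
    have h2 : i * (n : ZMod 0) = 0 := by
      injection hx
    have h3 : i = 0 := by
      rcases mul_eq_zero.mp h2 with h | h
      · exact h
      · exact absurd (by exact_mod_cast h) hn.ne'
    rw [h3, DihedralGroup.one_def]
  | sr i =>
    have : (1 : ZMod 2) = 0 := hs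
    exact absurd this (by decide)

theorem torsionFree (g : G) (hg : IsOfFinOrder g) : g = 1 := by
  obtain ⟨n, hn, hgn⟩ := isOfFinOrder_iff_pow_eq_one.mp hg
  obtain ⟨⟨x, y, z⟩, hmem⟩ := g
  rw [Subtype.ext_iff] at hgn
  simp only [SubgroupClass.coe_pow, Prod.pow_mk, OneMemClass.coe_one, Prod.mk_eq_one] at hgn
  obtain ⟨hx, hy, hz⟩ := hgn
  obtain ⟨h1, h2, h3, h4⟩ := (mem_iff _ _ _).mp hmem
  have Kx := eq_one_of_sgn_zero x n hn hx
  have Ky := eq_one_of_sgn_zero y n hn hy
  have Kz := eq_one_of_sgn_zero z n hn hz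
  have key : x = 1 ∧ y = 1 ∧ z = 1 := by
    have : ∀ a b c : ZMod 2, a + b + c = 0 → a = 0 ∨ b = 0 ∨ c = 0 := by decide
    rcases this _ _ _ h4 with h | h | h
    · have ex := Kx h
      have ey := Ky (by rw [← h1, ex, par_one])
      have ez := Kz (by rw [← h2, ey, par_one])
      exact ⟨ex, ey, ez⟩
    · have ey := Ky h
      have ez := Kz (by rw [← h2, ey, par_one])
      have ex := Kx (by rw [← h3, ez, par_one])
      exact ⟨ex, ey, ez⟩
    · have ez := Kz h
      have ex := Kx (by rw [← h3, ez, par_one])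
      have ey := Ky (by rw [← h1, ex, par_one])
      exact ⟨ex, ey, ez⟩
  obtain ⟨rfl, rfl, rfl⟩ := key
  rfl

end TH696.HW
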