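import Pool.Agent.TH696.HW.Noeth

universe u v w

namespace TH696.HW

open DihedralGroup

section Main

variable (k : Type u) [CommRing k]

/-- the two elements `a - 1`, `b - 1`. -/
noncomputable def gen : Bool → QG k
  | false => MonoidAlgebra.of k G ga - 1
  | true => MonoidAlgebra.of k G gb - 1

/-- the coefficients. -/
noncomputable def coef (h : k) : Bool → Bool → Bool → QG k
  | false, false, false => r1 h (MonoidAlgebra.of k G ga) (MonoidAlgebra.of k G gb) (MonoidAlgebra.of k G gb⁻¹)
  | false, false, true => r2 h (MonoidAlgebra.of k G ga) (MonoidAlgebra.of k G gb) (MonoidAlgebra.of k G gb⁻¹)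
  | false, true, false => r3 h (MonoidAlgebra.of k G ga) (MonoidAlgebra.of k G gb) (MonoidAlgebra.of k G gb⁻¹)
  | false, true, true => 0
  | true, true, true => r1 h (MonoidAlgebra.of k G gb) (MonoidAlgebra.of k G ga) (MonoidAlgebra.of k G ga⁻¹)
  | true, true, false => r2 h (MonoidAlgebra.of k G gb) (MonoidAlgebra.of k G ga) (MonoidAlgebra.of k G ga⁻¹)
  | true, false, true => r3 h (MonoidAlgebra.of k G gb) (MonoidAlgebra.of k G ga) (MonoidAlgebra.of k G ga⁻¹)
  | true, false, false => 0

theorem gen_eq (h : k) (hh : 2 * h = 1) (i : Bool) :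
    gen k i = gen k false * gen k false * coef k h i false false
      + gen k false * gen k true * coef k h i false true
      + gen k true * gen k false * coef k h i true false
      + gen k true * gen k true * coef k h i true true := by
  cases i with
  | false =>
    have e := expand (k := k) h (MonoidAlgebra.of k G ga) (MonoidAlgebra.of k G gb)
      (MonoidAlgebra.of k G gb⁻¹) hh (by rw [← map_mul, mul_inv_cancel, map_one])
      (by rw [← map_mul, ← map_mul, ← map_mul, ← map_mul, rel_ab])
    simp only [coef, mul_zero, add_zero]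
    exact e
  | true =>
    have e := expand (k := k) h (MonoidAlgebra.of k G gb) (MonoidAlgebra.of k G ga)
      (MonoidAlgebra.of k G ga⁻¹) hh (by rw [← map_mul, mul_inv_cancel, map_one])
      (by rw [← map_mul, ← map_mul, ← map_mul, ← map_mul, rel_ba])
    simp only [coef, mul_zero, zero_add]
    refine e.trans ?_
    simp only [gen]
    abel

/-- augmentation -/
noncomputable def eps : QG k →+* k := (MonoidAlgebra.lift k k G (1 : G →* k)).toRingHom

theorem eps_gen (i : Bool) : eps k (gen k i) = 0 := by
  cases i <;> simp [eps, gen]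

/-- the sign character `g ↦ (-1)^{sgn g.2}`. -/
def chiG : G →* k where
  toFun g := if sgn g.1.2.1 = 0 then 1 else -1
  map_one' := by
    show (if sgn 1 = 0 then (1 : k) else -1) = 1
    rw [if_pos sgn_one]
  map_mul' x y := by
    show (if sgn (x.1.2.1 * y.1.2.1) = 0 then (1 : k) else -1) =
      (if sgn x.1.2.1 = 0 then 1 else -1) * (if sgn y.1.2.1 = 0 then 1 else -1)
    rw [sgn_mul]
    generalize sgn x.1.2.1 = s
    generalize sgn y.1.2.1 = t
    have h : ∀ s t : ZMod 2, (s = 0 ∧ t = 0 ∧ s + t = 0) ∨ (s = 0 ∧ t ≠ 0 ∧ s + t ≠ 0) ∨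
      (s ≠ 0 ∧ t = 0 ∧ s + t ≠ 0) ∨ (s ≠ 0 ∧ t ≠ 0 ∧ s + t = 0) := by decide
    rcases h s t with ⟨h1, h2, h3⟩ | ⟨h1, h2, h3⟩ | ⟨h1, h2, h3⟩ | ⟨h1, h2, h3⟩
    · rw [if_pos h1, if_pos h2, if_pos h3, one_mul]
    · rw [if_pos h1, if_neg h2, if_neg h3, one_mul]
    · rw [if_neg h1, if_pos h2, if_neg h3, mul_one]
    · rw [if_neg h1, if_neg h2, if_pos h3, neg_mul_neg, one_mul]

/-- the corresponding ring homomorphism. -/
noncomputable def chi : QG k →+* k := (MonoidAlgebra.lift k k G (chiG k)).toRingHom

theorem chi_surj : Function.Surjective (chi k) := by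
  intro x
  refine ⟨algebraMap k (QG k) x, ?_⟩
  show (MonoidAlgebra.lift k k G (chiG k)) (algebraMap k (QG k) x) = x
  rw [AlgHom.commutes]
  rfl

theorem chi_of (g : G) : chi k (MonoidAlgebra.of k G g) = chiG k g := by
  show (MonoidAlgebra.lift k k G (chiG k)) _ = _
  rw [MonoidAlgebra.lift_of]

theorem chi_false : chi k (gen k false) = -2 := by
  have : chiG k ga = -1 := by
    show (if sgn (sr 1) = 0 then (1 : k) else -1) = -1
    exact if_neg (by decide)
  simp only [gen, map_sub, map_one, chi_of, this]
  norm_num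

theorem chi_true : chi k (gen k true) = 0 := by
  have : chiG k gb = 1 := by
    show (if sgn (r 1) = 0 then (1 : k) else -1) = 1
    exact if_pos (by decide)
  simp only [gen, map_sub, map_one, chi_of, this, sub_self]

theorem projective_P (h : k) (hh : 2 * h = 1) : Module.Projective (QG k) (P (gen k)) :=
  projective (gen k) (coef k h) (gen_eq k h hh)

theorem no_iso [IsNoetherianRing k] [Nontrivial k] (h : k) (hh : 2 * h = 1)
    (F : Type w) [AddCommGroup F] [Module (QG k) F] [Module.Free (QG k) F]
    (I : Submodule (QG k) (QG k)) : IsEmpty (P (gen k) ≃ₗ[QG k] (F × I)) := by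
  refine ⟨fun e => ?_⟩
  have hN : IsNoetherianRing (QG k) := noeth_QG k
  let b := Module.Free.chooseBasis (QG k) F
  have hempty : IsEmpty (Module.Free.ChooseBasisIndex (QG k) F) := by
    refine ⟨fun i => ?_⟩
    let ψ : P (gen k) →ₗ[QG k] QG k := (b.coord i) ∘ₗ (LinearMap.fst (QG k) F I) ∘ₗ e.toLinearMap
    have h1 := eps_hom (gen k) (eps k) (eps_gen k) ψ (e.symm (b i, 0))
    have h2 : ψ (e.symm (b i, 0)) = 1 := by
      show b.coord i (e (e.symm (b i, 0))).1 = 1
      rw [LinearEquiv.apply_symm_apply, Module.Basis.coord_apply, Module.Basis.repr_self,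
        Finsupp.single_eq_same]
    rw [h2, map_one] at h1
    exact one_ne_zero h1
  have : Module.Finite (QG k) F := Module.Finite.of_basis b
  have : Module.Finite (QG k) (F × I) := inferInstance
  have : Module.Finite (QG k) (P (gen k)) := Module.Finite.equiv e.symm
  exact not_finite (gen k) (chi k) h (chi_surj k) hh (chi_false k) (chi_true k) this

end Main

end TH696.HW
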