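import Pool.Agent.TH696.HW.General

universe u v

namespace TH696.HW

open Finsupp Polynomial

section NotFG

variable {R : Type u} [Ring R] {k : Type v} [CommRing k] (a : Bool → R) (χ : R →+* k) (h : k)

/-- weights of the basis vectors. -/
noncomputable def c : List Bool → k[X]
  | [] => 1
  | (false :: w) => (-h) • c w
  | (true :: w) => X * c w

/-- the semilinear map `e_w ↦ c w`. -/
noncomputable def θ : (List Bool →₀ R) →ₛₗ[χ] k[X] where
  toFun f := f.sum (fun w x => χ x • c h w)
  map_add' f g := by
    rw [Finsupp.sum_add_index']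
    · intro w; simp
    · intro w x y; rw [map_add, add_smul]
  map_smul' x f := by
    rw [Finsupp.sum_smul_index (fun w => by simp), Finsupp.sum, Finsupp.sum, Finset.smul_sum]
    refine Finset.sum_congr rfl fun w _ => ?_
    rw [map_mul, mul_smul]

theorem θ_single (w : List Bool) (x : R) : θ χ h (Finsupp.single w x) = χ x • c h w := by
  show (Finsupp.single w x).sum (fun w x => χ x • c h w) = _
  rw [Finsupp.sum_single_index (by simp)]

theorem θ_D (hh : 2 * h = 1) (h0 : χ (a false) = -2) (h1 : χ (a true) = 0) (x : List Bool →₀ R) :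
    θ χ h (D a x) = 0 := by
  induction x using Finsupp.induction_linear with
  | zero => simp
  | add f g hf hg => rw [map_add, map_add, hf, hg, add_zero]
  | single w x =>
    have : (Finsupp.single w x : List Bool →₀ R) = x • Finsupp.single w 1 := by simp
    rw [this, map_smul, D_single, map_smulₛₗ, map_sub, map_add, map_smulₛₗ, map_smulₛₗ,
      θ_single, θ_single, θ_single, h0, h1]
    have e : (-2 : k) * (1 * -h) = 1 := by linear_combination hh
    simp only [map_one, one_smul, zero_smul, add_zero, c, smul_smul, e, sub_self,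
      smul_zero]

theorem not_finite [Nontrivial k] (hχ : Function.Surjective χ) (hh : 2 * h = 1)
    (h0 : χ (a false) = -2) (h1 : χ (a true) = 0) :
    ¬ Module.Finite R (P a) := by
  intro hfin
  have : RingHomSurjective χ := ⟨hχ⟩
  let Θ : P a →ₛₗ[χ] k[X] := (LinearMap.range (D a)).liftQ (θ χ h) (by
    rintro _ ⟨x, rfl⟩
    rw [LinearMap.mem_ker]
    exact θ_D a χ h hh h0 h1 x)
  have hX : ∀ n : ℕ, ∃ w, c h w = (X : k[X]) ^ n := by
    intro n
    induction n with
    | zero => exact ⟨[], by simp [c]⟩
    | succ n ih =>
      obtain ⟨w, hw⟩ := ih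
      exact ⟨true :: w, by rw [c, hw, pow_succ']⟩
  have hsurj : Function.Surjective Θ := by
    intro p
    induction p using Polynomial.induction_on' with
    | add p q hp hq =>
      obtain ⟨x, hx⟩ := hp
      obtain ⟨y, hy⟩ := hq
      exact ⟨x + y, by rw [map_add, hx, hy]⟩
    | monomial n b =>
      obtain ⟨w, hw⟩ := hX n
      obtain ⟨y, hy⟩ := hχ b
      refine ⟨(LinearMap.range (D a)).mkQ (Finsupp.single w y), ?_⟩
      show θ χ h (Finsupp.single w y) = _
      rw [θ_single, hw, hy, ← Polynomial.C_mul_X_pow_eq_monomial, Polynomial.smul_eq_C_mul]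
  have : Module.Finite k k[X] := Module.Finite.of_surjective Θ hsurj
  exact Polynomial.not_finite this

end NotFG

end TH696.HW
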