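import Mathlib

universe u v

namespace TH696.HW

section Relation

variable {R : Type u} [Ring R] {k : Type v} [CommRing k] [Algebra k R] (h : k)

/-- coefficients -/
noncomputable def r1 (A B B' : R) : R :=
  (h * h) • (-1 - 1 + (B - 1) * B' - (1 + 1) * (A + 1) * B'
    - ((A * A - 1) + (B - 1) * (A * A - 1)) * B')

noncomputable def r2 (A _B B' : R) : R :=
  (h * h) • ((1 + 1) * B' - (1 + 1) * (A * A - 1) * B')

noncomputable def r3 (A _B B' : R) : R := (h * h) • (-(A + 1) * B')

theorem expand (A B B' : R) (hh : 2 * h = 1) (hB : B * B' = 1) (hr : A * A * B * A * A = B) :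
    A - 1 = (A - 1) * (A - 1) * r1 h A B B' + (A - 1) * (B - 1) * r2 h A B B'
      + (B - 1) * (A - 1) * r3 h A B B' := by
  have key : (4 : ℕ) • (A - 1) = (A - 1) * (A - 1) *
      (-1 - 1 + (B - 1) * B' - (1 + 1) * (A + 1) * B' - ((A * A - 1) + (B - 1) * (A * A - 1)) * B')
      + (A - 1) * (B - 1) * ((1 + 1) * B' - (1 + 1) * (A * A - 1) * B')
      + (B - 1) * (A - 1) * (-(A + 1) * B') := by
    have e1 : (A - 1) * (A - 1) *
      (-1 - 1 + (B - 1) * B' - (1 + 1) * (A + 1) * B' - ((A * A - 1) + (B - 1) * (A * A - 1)) * B')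
      + (A - 1) * (B - 1) * ((1 + 1) * B' - (1 + 1) * (A * A - 1) * B')
      + (B - 1) * (A - 1) * (-(A + 1) * B') =
        (-1 - 1) * (A - 1) * (A - 1)
          + ((1 + 1) * (A * A - 1) * B - (A * A * B * A * A - B)) * B' := by
      noncomm_ring
    rw [e1, hr, sub_self, sub_zero, mul_assoc _ B B', hB, mul_one]
    noncomm_ring
  calc A - 1 = (h * h) • ((4 : ℕ) • (A - 1)) := by
        rw [← Nat.cast_smul_eq_nsmul k, smul_smul]
        have : h * h * ((4 : ℕ) : k) = 1 := by
          push_cast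
          linear_combination (2 * h + 1) * hh
        rw [this, one_smul]
    _ = (h * h) • _ := by rw [key]
    _ = _ := by simp only [r1, r2, r3, mul_smul_comm, smul_add]

end Relation

end TH696.HW
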