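import Pool.Agent.TH696.HW.Poly
import Pool.Agent.TH696.HW.NotFG
import Pool.Agent.TH696.HW.Relation

universe u

namespace TH696.HW

open DihedralGroup

/-- The lattice. -/
abbrev T : Type := Multiplicative ℤ × Multiplicative ℤ × Multiplicative ℤ

variable (k : Type u) [CommRing k]

/-- commutative Laurent polynomial ring. -/
abbrev B : Type u := MonoidAlgebra k T

/-- the group ring. -/
abbrev QG : Type u := MonoidAlgebra k G

theorem noeth_B [IsNoetherianRing k] : IsNoetherianRing (B k) :=
  Algebra.FiniteType.isNoetherianRing k (B k)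

/-- the map of group rings. -/
noncomputable def fB : B k →+* QG k := MonoidAlgebra.mapDomainRingHom k τ

theorem noeth_QG [IsNoetherianRing k] : IsNoetherianRing (QG k) := by
  have hB := noeth_B k
  let _ : Module (B k) (QG k) := Module.compHom (QG k) (fB k)
  have smul_def : ∀ (b : B k) (x : QG k), b • x = fB k b * x := fun _ _ => rfl
  have : IsScalarTower (B k) (QG k) (QG k) := ⟨fun b x y => by
    rw [smul_def, smul_def, smul_eq_mul, smul_eq_mul, mul_assoc]⟩
  have hfi : τ.range.FiniteIndex := by
    rw [← A_eq]; infer_instance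
  have : Finite (G ⧸ τ.range) := Subgroup.finite_quotient_of_finiteIndex
  have : Module.Finite (B k) (QG k) := by
    let s : Set (QG k) := Set.range (fun c : G ⧸ τ.range => MonoidAlgebra.of k G (Quotient.out c)⁻¹)
    have hs : s.Finite := Set.finite_range _
    refine ⟨⟨hs.toFinset, ?_⟩⟩
    rw [Set.Finite.coe_toFinset, eq_top_iff]
    rintro x -
    have hof : ∀ g : G, MonoidAlgebra.of k G g ∈ Submodule.span (B k) s := by
      intro g
      have hg : (QuotientGroup.mk (s := τ.range) (Quotient.out (QuotientGroup.mk (s := τ.range) g⁻¹)) : G ⧸ τ.range)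
          = QuotientGroup.mk g⁻¹ := Quotient.out_eq _
      rw [QuotientGroup.eq] at hg
      obtain ⟨t, ht⟩ := hg
      have h2 : g = τ t⁻¹ * (Quotient.out (QuotientGroup.mk (s := τ.range) g⁻¹))⁻¹ := by
        rw [map_inv, ht]
        group
      have h3 : MonoidAlgebra.of k G g = (MonoidAlgebra.of k T t⁻¹ : B k) •
          MonoidAlgebra.of k G (Quotient.out (QuotientGroup.mk (s := τ.range) g⁻¹))⁻¹ := by
        rw [smul_def]
        conv_lhs => rw [h2]
        rw [map_mul]
        congr 1
        show _ = MonoidAlgebra.mapDomainRingHom k τ (MonoidAlgebra.single t⁻¹ 1)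
        simp
      rw [h3]
      exact Submodule.smul_mem _ _ (Submodule.subset_span ⟨_, rfl⟩)
    induction x using MonoidAlgebra.induction_on with
    | of g => exact hof g
    | add x y hx hy => exact Submodule.add_mem _ hx hy
    | smul r x hx =>
      have : r • x = (MonoidAlgebra.single (1 : T) r : B k) • x := by
        rw [smul_def]
        have : fB k (MonoidAlgebra.single (1 : T) r) = MonoidAlgebra.single (1 : G) r := by
          show MonoidAlgebra.mapDomainRingHom k τ (MonoidAlgebra.single 1 r) = _
          simp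
        rw [this]
        ext g
        simp
      rw [this]
      exact Submodule.smul_mem _ _ hx
  have : IsNoetherian (B k) (QG k) := isNoetherian_of_isNoetherianRing_of_finite (B k) (QG k)
  exact isNoetherian_of_tower (B k) this

/-- generator a -/
def ga : G := ⟨(r 1, sr 1, sr 0), by
  rw [mem_iff]
  refine ⟨?_, ?_, ?_, ?_⟩ <;> simp [par, sgn, q] <;> decide⟩

/-- generator b -/
def gb : G := ⟨(sr 0, r 1, sr 1), by
  rw [mem_iff]
  refine ⟨?_, ?_, ?_, ?_⟩ <;> simp [par, sgn, q] <;> decide⟩

theorem rel_ab : ga * ga * gb * ga * ga = gb := by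
  apply Subtype.ext
  show ((r 1, sr 1, sr 0) * (r 1, sr 1, sr 0) * (sr 0, r 1, sr 1) * (r 1, sr 1, sr 0) * (r 1, sr 1, sr 0)
    : Dih × Dih × Dih) = (sr 0, r 1, sr 1)
  decide

theorem rel_ba : gb * gb * ga * gb * gb = ga := by
  apply Subtype.ext
  show ((sr 0, r 1, sr 1) * (sr 0, r 1, sr 1) * (r 1, sr 1, sr 0) * (sr 0, r 1, sr 1) * (sr 0, r 1, sr 1)
    : Dih × Dih × Dih) = (r 1, sr 1, sr 0)
  decide

end TH696.HW
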