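import Pool.Agent.TH696.HW.Group
import Pool.Agent.TH696.HW.Defs

namespace TH696.HW

open DihedralGroup

/-- signs homomorphism -/
def signs : G →* Multiplicative (ZMod 2) × Multiplicative (ZMod 2) × Multiplicative (ZMod 2) :=
  (MonoidHom.prodMap sgnHom (MonoidHom.prodMap sgnHom sgnHom)).comp GS.subtype

/-- translations. -/
def A : Subgroup G := signs.ker

theorem mem_A (g : G) : g ∈ A ↔ sgn g.1.1 = 0 ∧ sgn g.1.2.1 = 0 ∧ sgn g.1.2.2 = 0 := by
  rw [A, MonoidHom.mem_ker, Prod.ext_iff, Prod.ext_iff]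
  exact Iff.rfl

theorem isCyclic_quot {P : Type} [Group P] (N K : Subgroup P) [(N.subgroupOf K).Normal] (g : P)
    (hg : g ∈ K) (h : ∀ x ∈ K, ∃ m : ℤ, (g ^ m)⁻¹ * x ∈ N) : IsCyclic (K ⧸ N.subgroupOf K) := by
  refine ⟨⟨QuotientGroup.mk ⟨g, hg⟩, fun y => ?_⟩⟩
  obtain ⟨⟨x, hx⟩, rfl⟩ := QuotientGroup.mk_surjective y
  obtain ⟨m, hm⟩ := h x hx
  refine ⟨m, ?_⟩
  show (QuotientGroup.mk (s := N.subgroupOf K) (⟨g, hg⟩ : K)) ^ m = QuotientGroup.mk (⟨x, hx⟩ : K)
  rw [← QuotientGroup.mk_zpow, QuotientGroup.eq, Subgroup.mem_subgroupOf]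
  exact hm

theorem q_even (i : ZMod 0) (h : q i = 0) : ∃ j : ℤ, i = 2 * (show ZMod 0 from j) := by
  have h1 : ((show ℤ from i : ℤ) : ZMod 2) = 0 := h
  rw [ZMod.intCast_zmod_eq_zero_iff_dvd] at h1
  obtain ⟨j, hj⟩ := h1
  exact ⟨j, hj⟩

/-- translation by `2 v`. -/
def trans (x : ℤ) : Dih := r (2 * (show ZMod 0 from x))

theorem trans_of (x : Dih) (hs : sgn x = 0) (hp : par x = 0) : ∃ m : ℤ, x = trans m := by
  cases x with
  | r i =>
    obtain ⟨j, hj⟩ := q_even i hp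
    exact ⟨j, by rw [hj]; rfl⟩
  | sr i =>
    have : (1 : ZMod 2) = 0 := hs
    exact absurd this (by decide)

theorem trans_add (x y : ℤ) : trans (x + y) = trans x * trans y := by
  rw [trans, trans, trans, r_mul_r]
  congr 1
  show (2 : ℤ) * (x + y) = 2 * x + 2 * y
  ring

theorem trans_zero : trans 0 = 1 := by
  rw [trans, DihedralGroup.one_def]
  rfl

theorem sgn_trans (x : ℤ) : sgn (trans x) = 0 := rfl

theorem par_trans (x : ℤ) : par (trans x) = 0 := by
  show q (2 * _) = 0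
  rw [map_mul]
  have : q 2 = 0 := by
    rw [map_ofNat]; decide
  rw [this, zero_mul]

/-- the translation lattice as a homomorphism -/
def transHom : Multiplicative ℤ →* Dih :=
  MonoidHom.mk' (fun x => trans x.toAdd) (fun _ _ => trans_add _ _)

/-- the translations -/
def τ : Multiplicative ℤ × Multiplicative ℤ × Multiplicative ℤ →* G :=
  (MonoidHom.prodMap transHom (MonoidHom.prodMap transHom transHom)).codRestrict GS (by
    rintro ⟨x, y, z⟩
    show par (trans _) = sgn (trans _) ∧ par (trans _) = sgn (trans _) ∧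
      par (trans _) = sgn (trans _) ∧ sgn (trans _) + sgn (trans _) + sgn (trans _) = 0
    rw [par_trans, par_trans, par_trans, sgn_trans, sgn_trans, sgn_trans]
    exact ⟨rfl, rfl, rfl, rfl⟩)

theorem A_eq : A = τ.range := by
  ext g
  rw [mem_A, MonoidHom.mem_range]
  constructor
  · rintro ⟨h1, h2, h3⟩
    obtain ⟨⟨x, y, z⟩, hmem⟩ := g
    obtain ⟨k1, k2, k3, k4⟩ := (mem_iff _ _ _).mp hmem
    simp only at h1 h2 h3
    obtain ⟨a, rfl⟩ := trans_of x h1 (by rw [k1, h2])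
    obtain ⟨b, rfl⟩ := trans_of y h2 (by rw [k2, h3])
    obtain ⟨c, rfl⟩ := trans_of z h3 (by rw [k3, h1])
    exact ⟨(Multiplicative.ofAdd a, Multiplicative.ofAdd b, Multiplicative.ofAdd c), rfl⟩
  · rintro ⟨⟨x, y, z⟩, rfl⟩
    exact ⟨rfl, rfl, rfl⟩

instance : A.FiniteIndex := by
  unfold A
  infer_instance

/-- second coordinate -/
def pr2 : A →* Dih := (MonoidHom.fst _ _).comp ((MonoidHom.snd _ _).comp (GS.subtype.comp A.subtype))
/-- third coordinate -/
def pr3 : A →* Dih := (MonoidHom.snd _ _).comp ((MonoidHom.snd _ _).comp (GS.subtype.comp A.subtype))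

/-- the chain -/
def chain : ℕ → Subgroup A
  | 0 => ⊥
  | 1 => pr2.ker ⊓ pr3.ker
  | 2 => pr3.ker
  | _ => ⊤

instance chain_normal (i : ℕ) : (chain i).Normal := by
  match i with
  | 0 => exact inferInstanceAs (⊥ : Subgroup A).Normal
  | 1 => exact inferInstanceAs (pr2.ker ⊓ pr3.ker).Normal
  | 2 => exact inferInstanceAs (pr3.ker).Normal
  | (n+3) => exact inferInstanceAs (⊤ : Subgroup A).Normal

/-- element of A -/
def tA (x y z : ℤ) : A := ⟨τ (Multiplicative.ofAdd x, Multiplicative.ofAdd y, Multiplicative.ofAdd z), by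
  rw [A_eq]; exact ⟨_, rfl⟩⟩

theorem tA_surj (g : A) : ∃ x y z, g = tA x y z := by
  obtain ⟨⟨x, y, z⟩, h⟩ := (SetLike.ext_iff.mp A_eq g.1).mp g.2
  exact ⟨x.toAdd, y.toAdd, z.toAdd, Subtype.ext h.symm⟩

theorem tA_mul (x y z x' y' z' : ℤ) : tA x y z * tA x' y' z' = tA (x + x') (y + y') (z + z') := by
  apply Subtype.ext
  show τ _ * τ _ = τ _
  rw [← map_mul]
  rfl

theorem tA_inv (x y z : ℤ) : (tA x y z)⁻¹ = tA (-x) (-y) (-z) := by
  apply Subtype.ext
  show (τ _)⁻¹ = τ _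
  rw [← map_inv]
  rfl

theorem tA_zpow (x y z m : ℤ) : (tA x y z) ^ m = tA (m * x) (m * y) (m * z) := by
  apply Subtype.ext
  show (((tA x y z) ^ m : A) : G) = τ _
  rw [SubgroupClass.coe_zpow]
  show (τ _) ^ m = τ _
  rw [← map_zpow]
  rfl

theorem trans_eq_one (x : ℤ) (h : trans x = 1) : x = 0 := by
  rw [trans, DihedralGroup.one_def] at h
  have h2 : (2 : ℤ) * x = 0 := by
    injection h
  omega

theorem mem_pr3 (x y z : ℤ) : tA x y z ∈ pr3.ker ↔ z = 0 := by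
  rw [MonoidHom.mem_ker]
  show trans z = 1 ↔ _
  constructor
  · exact trans_eq_one z
  · rintro rfl; exact trans_zero

theorem mem_pr2 (x y z : ℤ) : tA x y z ∈ pr2.ker ↔ y = 0 := by
  rw [MonoidHom.mem_ker]
  show trans y = 1 ↔ _
  constructor
  · exact trans_eq_one y
  · rintro rfl; exact trans_zero

theorem tA_zero : tA 0 0 0 = 1 := by
  apply Subtype.ext
  show τ _ = 1
  rw [← map_one τ]
  rfl

theorem polycyclic_A : IsPolycyclic A := by
  refine ⟨3, chain, rfl, rfl, ?_⟩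
  intro i hi
  interval_cases i
  · refine ⟨bot_le, inferInstance, ?_⟩
    refine isCyclic_quot _ _ (tA 1 0 0) ?_ ?_
    · exact ⟨(mem_pr2 _ _ _).mpr rfl, (mem_pr3 _ _ _).mpr rfl⟩
    · rintro g ⟨h2, h3⟩
      obtain ⟨x, y, z, rfl⟩ := tA_surj g
      have h2 := (mem_pr2 _ _ _).mp h2
      have h3 := (mem_pr3 _ _ _).mp h3
      refine ⟨x, ?_⟩
      rw [tA_zpow, tA_inv, tA_mul, h2, h3]
      show _ ∈ (⊥ : Subgroup A)
      rw [Subgroup.mem_bot, ← tA_zero]
      congr 1 <;> ring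
  · refine ⟨inf_le_right, inferInstance, ?_⟩
    refine isCyclic_quot _ _ (tA 0 1 0) ?_ ?_
    · exact (mem_pr3 _ _ _).mpr rfl
    · intro g h3
      obtain ⟨x, y, z, rfl⟩ := tA_surj g
      have h3 := (mem_pr3 _ _ _).mp h3
      refine ⟨y, ?_⟩
      rw [tA_zpow, tA_inv, tA_mul]
      refine ⟨(mem_pr2 _ _ _).mpr (by ring), (mem_pr3 _ _ _).mpr (by rw [h3]; ring)⟩
  · refine ⟨le_top, inferInstance, ?_⟩
    refine isCyclic_quot _ _ (tA 0 0 1) trivial ?_
    intro g _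
    obtain ⟨x, y, z, rfl⟩ := tA_surj g
    refine ⟨z, ?_⟩
    rw [tA_zpow, tA_inv, tA_mul]
    exact (mem_pr3 _ _ _).mpr (by ring)

theorem polycyclicByFinite : IsPolycyclicByFinite G :=
  ⟨A, by unfold A; infer_instance, inferInstance, polycyclic_A⟩

end TH696.HW
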